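import Pool.Agent.Results.MP_5335f7_al.TwoGenerated
import Mathlib.Algebra.Group.MinimalAxioms
import Mathlib.GroupTheory.FreeGroup.Basic
import Mathlib.GroupTheory.Index
import Mathlib.LinearAlgebra.InvariantBasisNumber
import Mathlib.Tactic

/-!
# Finitely generated groups in two-generated groups whose derived group satisfies the same laws

Every finitely generated group `G` embeds in the derived subgroup of a two-generated group `H`
whose derived subgroup is isomorphic to a subgroup of a Cartesian power of `G`. If `G` is finite,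
then `H` can be chosen finite, and if `G` is residually finite or torsion-free, so is `H`.
In particular a solvable `G` of derived length `l ≥ 1` embeds in a two-generated solvable group of
derived length `l + 1`. This is best possible, for every number of generators: for all `k` and
`l ≥ 1` there is a finitely generated solvable group of derived length `l` which does not embed in
any `k`-generated group of derived length at most `l` (an iterated wreath product of `ℤ`).
-/

namespace Pool.Agent.Results.MP_5335f7_al.SharpEmbedding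

universe u v

open scoped commutatorElement
open Pool.Agent.Results.MP_5335f7_al.TwoGenerated

/-- Every nontrivial element is outside some normal subgroup of finite index. -/
def ResiduallyFinite (G : Type u) [Group G] : Prop :=
  ∀ a : G, a ≠ 1 → ∃ N : Subgroup G, N.Normal ∧ N.FiniteIndex ∧ a ∉ N

/-- Only the identity has finite order. -/
def TorsionFree (G : Type u) [Group G] : Prop :=
  ∀ a : G, a ≠ 1 → ∀ k : ℕ, 0 < k → a ^ k ≠ 1

/-- The words in countably many variables which are laws of `G` are those which are laws of `K`. -/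
def SameLaws (G : Type u) [Group G] (K : Type v) [Group K] : Prop :=
  ∀ w : FreeGroup ℕ, (∀ f : ℕ → G, FreeGroup.lift f w = 1) ↔
    (∀ f : ℕ → K, FreeGroup.lift f w = 1)

/-- `l` is the derived length of `G`. -/
def HasDerivedLength (G : Type u) [Group G] (l : ℕ) : Prop :=
  IsLeast {m : ℕ | derivedSeries G m = ⊥} l

/-- `H` is generated by `k` elements. -/
def Generated (k : ℕ) (H : Type u) [Group H] : Prop :=
  ∃ f : Fin k → H, Subgroup.closure (Set.range f) = ⊤

/-! ## Derived length -/

section dl

variable {G : Type u} {H : Type v} [Group G] [Group H] {ι : Type}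

lemma map_le (φ : G →* H) (hc : ∀ g, φ g ∈ commutator H) (k : ℕ) :
    (derivedSeries G k).map φ ≤ derivedSeries H (k + 1) := by
  induction k with
  | zero =>
    rintro _ ⟨a, -, rfl⟩
    rw [zero_add, derivedSeries_one]
    exact hc a
  | succ k ih =>
    rw [derivedSeries_succ G, Subgroup.map_commutator, derivedSeries_succ _ (k + 1)]
    exact Subgroup.commutator_mono ih ih

lemma le_map (ψ : commutator H →* (ι → G)) (k : ℕ) :
    derivedSeries H (k + 1) ≤
      ((Subgroup.pi Set.univ (fun _ : ι => derivedSeries G k)).comap ψ).map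
        (commutator H).subtype := by
  induction k with
  | zero =>
    rw [zero_add, derivedSeries_one]
    intro x hx
    exact ⟨⟨x, hx⟩, by simp [Subgroup.mem_pi], rfl⟩
  | succ k ih =>
    rw [derivedSeries_succ]
    refine (Subgroup.commutator_mono ih ih).trans ?_
    rw [← Subgroup.map_commutator]
    apply Subgroup.map_mono
    rw [Subgroup.commutator_le]
    intro a ha b hb
    rw [Subgroup.mem_comap, Subgroup.mem_pi] at *
    intro i hi
    rw [map_commutatorElement]
    have h1 : ⁅ψ a, ψ b⁆ i = ⁅ψ a i, ψ b i⁆ := rfl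
    rw [h1, derivedSeries_succ]
    exact Subgroup.commutator_mem_commutator (ha i hi) (hb i hi)

lemma dl_iff (φ : G →* H) (hφ : Function.Injective φ) (hc : ∀ g, φ g ∈ commutator H)
    (ψ : commutator H →* (ι → G)) (hψ : Function.Injective ψ) (k : ℕ) :
    derivedSeries G k = ⊥ ↔ derivedSeries H (k + 1) = ⊥ := by
  constructor
  · intro h
    rw [eq_bot_iff]
    intro x hx
    obtain ⟨y, hy, rfl⟩ := le_map ψ k hx
    have h1 : y = 1 := by
      apply hψ
      rw [map_one]
      funext i
      have h2 := (Subgroup.mem_pi _).1 hy i (Set.mem_univ i)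
      rw [h, Subgroup.mem_bot] at h2
      exact h2
    rw [h1, map_one, Subgroup.mem_bot]
  · intro h
    rw [eq_bot_iff]
    intro a ha
    have h1 := map_le φ hc k ⟨a, ha, rfl⟩
    rw [h, Subgroup.mem_bot] at h1
    rw [Subgroup.mem_bot]
    apply hφ
    rw [h1, map_one]

lemma dl_len (φ : G →* H) (hφ : Function.Injective φ) (hc : ∀ g, φ g ∈ commutator H)
    (ψ : commutator H →* (ι → G)) (hψ : Function.Injective ψ) (l : ℕ) (hl : 1 ≤ l) :
    HasDerivedLength G l ↔ HasDerivedLength H (l + 1) := by
  have key := dl_iff φ hφ hc ψ hψ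
  constructor
  · rintro ⟨h1, h2⟩
    refine ⟨(key l).1 h1, ?_⟩
    intro m hm
    rcases m with _ | m
    · exfalso
      have h3 : derivedSeries H (0 + 1) = ⊥ := by
        rw [eq_bot_iff, ← (show derivedSeries H 0 = ⊥ from hm)]
        exact derivedSeries_antitone H (by omega)
      have h4 : l ≤ 0 := h2 ((key 0).2 h3)
      omega
    · have h4 : l ≤ m := h2 ((key m).2 hm)
      omega
  · rintro ⟨h1, h2⟩
    refine ⟨(key l).2 h1, ?_⟩
    intro m hm
    have h3 : l + 1 ≤ m + 1 := h2 ((key m).1 hm)
    omega

lemma laws (φ : G →* H) (hφ : Function.Injective φ) (hc : ∀ g, φ g ∈ commutator H)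
    (ψ : commutator H →* (ι → G)) (hψ : Function.Injective ψ) :
    SameLaws G (commutator H) := by
  intro w
  constructor
  · intro h f
    apply hψ
    rw [map_one]
    funext i
    have h1 := h (fun n => ψ (f n) i)
    have h2 : (((Pi.evalMonoidHom (fun _ : ι => G) i).comp ψ).comp (FreeGroup.lift f)) =
        FreeGroup.lift (fun n => ψ (f n) i) := by
      ext n
      simp
    have h3 := DFunLike.congr_fun h2 w
    rw [h1] at h3
    exact h3
  · intro h f
    let φ' : G →* commutator H := φ.codRestrict _ hc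
    have hφ' : Function.Injective φ' := fun a b hab => hφ (congrArg Subtype.val hab)
    apply hφ'
    rw [map_one]
    have h1 := h (fun n => φ' (f n))
    have h2 : φ'.comp (FreeGroup.lift f) = FreeGroup.lift (fun n => φ' (f n)) := by
      ext n
      simp
    have h3 := DFunLike.congr_fun h2 w
    rw [h1] at h3
    exact h3

end dl

/-! ## Subgroups of wreath products with abelian top group -/

section psi

variable {D : Type u} [Group D] {A : Type} [CommGroup A]

lemma right_one (K : Subgroup (RegularWreathProduct D A)) (w : K) (hw : w ∈ commutator K) :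
    (w : RegularWreathProduct D A).right = 1 := by
  let f : K →* A := (RegularWreathProduct.rightHom (D := D) (Q := A)).comp K.subtype
  have h := Abelianization.commutator_subset_ker f hw
  exact h

/-- The base group component of the elements of the derived subgroup. -/
def psi (K : Subgroup (RegularWreathProduct D A)) : commutator K →* (A → D) where
  toFun w := ((w : K) : RegularWreathProduct D A).left
  map_one' := rfl
  map_mul' a b := by
    funext q
    have h := right_one K a.1 a.2
    simp [h]

lemma psi_inj (K : Subgroup (RegularWreathProduct D A)) : Function.Injective (psi K) := by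
  intro a b hab
  apply Subtype.ext
  apply Subtype.ext
  apply RegularWreathProduct.ext
  · exact hab
  · rw [right_one K a.1 a.2, right_one K b.1 b.2]

end psi

/-! ## The restricted wreath product of the integers by a group -/

/-- Elements of the restricted wreath product of `ℤ` by `G`. -/
@[ext] structure L (G : Type) where
  /-- the component in the base group -/
  a : G →₀ ℤ
  /-- the component in the group -/
  g : G

namespace L

variable {G : Type} [Group G]

/-- translation of functions -/
noncomputable def sh (g : G) (f : G →₀ ℤ) : G →₀ ℤ := Finsupp.mapDomain (fun x => g * x) f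

lemma sh_zero (g : G) : sh g 0 = 0 := Finsupp.mapDomain_zero
lemma sh_add (g : G) (f f' : G →₀ ℤ) : sh g (f + f') = sh g f + sh g f' := Finsupp.mapDomain_add
lemma sh_one (f : G →₀ ℤ) : sh 1 f = f := by
  unfold sh
  have : (fun x : G => 1 * x) = id := by funext x; simp
  rw [this, Finsupp.mapDomain_id]
lemma sh_mul (g h : G) (f : G →₀ ℤ) : sh (g * h) f = sh g (sh h f) := by
  unfold sh
  rw [← Finsupp.mapDomain_comp]
  congr 1
  funext x
  simp [mul_assoc]
lemma sh_neg (g : G) (f : G →₀ ℤ) : sh g (-f) = - sh g f := by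
  have h : sh g (-f) + sh g f = 0 := by rw [← sh_add, neg_add_cancel, sh_zero]
  exact eq_neg_of_add_eq_zero_left h
lemma sh_sub (g : G) (f f' : G →₀ ℤ) : sh g (f - f') = sh g f - sh g f' := by
  rw [sub_eq_add_neg, sh_add, sh_neg, sub_eq_add_neg]
lemma sh_single (g h : G) (n : ℤ) : sh g (Finsupp.single h n) = Finsupp.single (g * h) n :=
  Finsupp.mapDomain_single

noncomputable instance : Mul (L G) := ⟨fun x y => ⟨x.a + sh x.g y.a, x.g * y.g⟩⟩
noncomputable instance : One (L G) := ⟨⟨0, 1⟩⟩
noncomputable instance : Inv (L G) := ⟨fun x => ⟨-(sh x.g⁻¹ x.a), x.g⁻¹⟩⟩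

@[simp] lemma mul_a (x y : L G) : (x * y).a = x.a + sh x.g y.a := rfl
@[simp] lemma mul_g (x y : L G) : (x * y).g = x.g * y.g := rfl
@[simp] lemma one_a : (1 : L G).a = 0 := rfl
@[simp] lemma one_g : (1 : L G).g = 1 := rfl
@[simp] lemma inv_a (x : L G) : (x⁻¹).a = -(sh x.g⁻¹ x.a) := rfl
@[simp] lemma inv_g (x : L G) : (x⁻¹).g = x.g⁻¹ := rfl

noncomputable instance : Group (L G) :=
  Group.ofLeftAxioms
    (by
      intro x y z
      ext1
      · rw [mul_a, mul_a, mul_a, mul_a, mul_g, sh_mul, sh_add, add_assoc]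
      · simp [mul_assoc])
    (by
      intro x
      ext1
      · rw [mul_a, one_a, one_g, sh_one, zero_add]
      · simp)
    (by
      intro x
      ext1
      · rw [mul_a, inv_a, inv_g, one_a, neg_add_cancel]
      · simp)

/-- The projection to `G`. -/
noncomputable def pr : L G →* G where
  toFun x := x.g
  map_one' := rfl
  map_mul' _ _ := rfl

/-- The inclusion of `G`. -/
noncomputable def inr : G →* L G where
  toFun g := ⟨0, g⟩
  map_one' := rfl
  map_mul' a b := by
    ext1
    · simp [sh_zero]
    · simp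

@[simp] lemma inr_a (g : G) : (inr g).a = 0 := rfl
@[simp] lemma inr_g (g : G) : (inr g).g = g := rfl

lemma pr_surj : Function.Surjective (pr (G := G)) := fun g => ⟨⟨0, g⟩, rfl⟩

/-- The generator of the base group. -/
noncomputable def t : L G := ⟨Finsupp.single 1 1, 1⟩

lemma abelian_normal (A : Subgroup (L G)) (hn : A.Normal)
    (hA : ∀ x ∈ A, ∀ y ∈ A, x * y = y * x) (x : L G) (hx : x ∈ A) : x.g = 1 := by
  by_contra hg
  have h1 : t * x * t⁻¹ * x⁻¹ ∈ A := A.mul_mem (hn.conj_mem x hx t) (A.inv_mem hx)
  have h2 : t * x * t⁻¹ * x⁻¹ = ⟨Finsupp.single 1 1 - Finsupp.single x.g 1, 1⟩ := by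
    ext1
    · simp only [mul_a, mul_g, inv_a, inv_g, t, inv_one, one_mul, mul_one, sh_one, sh_neg,
        sh_single, ← sh_mul, mul_inv_cancel]
      abel
    · simp [t]
  rw [h2] at h1
  have h3 := hA _ h1 _ hx
  have h4 := congrArg L.a h3
  simp only [mul_a, sh_one, sh_sub, sh_single, mul_one] at h4
  have h5 : Finsupp.single (1 : G) (1 : ℤ) - Finsupp.single x.g 1 =
      Finsupp.single x.g 1 - Finsupp.single (x.g * x.g) 1 := by
    have h6 : Finsupp.single (1 : G) (1 : ℤ) - Finsupp.single x.g 1 + x.a =
      (Finsupp.single x.g 1 - Finsupp.single (x.g * x.g) 1) + x.a := by rw [h4]; abel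
    exact add_right_cancel h6
  have h6 := DFunLike.congr_fun h5 x.g
  have h7 : ¬ (x.g * x.g = x.g) := by
    intro h
    apply hg
    simpa using h
  have h8 : ¬ (1 = x.g) := fun h => hg h.symm
  simp [h7, h8] at h6

lemma commute_of_g {x y : L G} (hx : x.g = 1) (hy : y.g = 1) : x * y = y * x := by
  ext1
  · simp only [mul_a, hx, hy, sh_one]
    rw [add_comm]
  · simp [hx, hy]

lemma bot_comm {K : Type v} [Group K] (m : ℕ) (h : derivedSeries K (m + 1) = ⊥) :
    ∀ x ∈ derivedSeries K m, ∀ y ∈ derivedSeries K m, x * y = y * x := by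
  intro x hx y hy
  rw [derivedSeries_succ] at h
  have h1 := Subgroup.commutator_mem_commutator hx hy
  rw [h, Subgroup.mem_bot] at h1
  exact commutatorElement_eq_one_iff_mul_comm.1 h1

lemma len_up (m : ℕ) (h : derivedSeries G m = ⊥) : derivedSeries (L G) (m + 1) = ⊥ := by
  have h1 : ∀ x ∈ derivedSeries (L G) m, x.g = 1 := by
    intro x hx
    have h2 := map_derivedSeries_le_derivedSeries (pr (G := G)) m ⟨x, hx, rfl⟩
    rw [h, Subgroup.mem_bot] at h2
    exact h2
  rw [derivedSeries_succ, eq_bot_iff, Subgroup.commutator_le]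
  intro x hx y hy
  rw [Subgroup.mem_bot, commutatorElement_eq_one_iff_mul_comm]
  exact commute_of_g (h1 x hx) (h1 y hy)

lemma len_down (m : ℕ) (h : derivedSeries (L G) (m + 1) = ⊥) : derivedSeries G m = ⊥ := by
  have h1 := abelian_normal (derivedSeries (L G) m) (derivedSeries_normal _ _) (bot_comm m h)
  rw [eq_bot_iff]
  intro g hg
  have h2 := map_derivedSeries_eq (f := pr (G := G)) pr_surj m
  rw [← h2] at hg
  obtain ⟨x, hx, rfl⟩ := hg
  rw [Subgroup.mem_bot]
  exact h1 x hx

lemma t_ne : (t : L G) ≠ 1 := by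
  intro h
  have h1 := congrArg L.a h
  simp [t] at h1

lemma len_zero : derivedSeries (L G) 0 ≠ ⊥ := by
  intro h
  have h1 : (t : L G) ∈ derivedSeries (L G) 0 := by simp
  rw [h, Subgroup.mem_bot] at h1
  exact t_ne h1

lemma len (m : ℕ) (h : HasDerivedLength G m) : HasDerivedLength (L G) (m + 1) := by
  refine ⟨len_up m h.1, ?_⟩
  intro n hn
  rcases n with _ | n
  · exact absurd hn len_zero
  · have h1 : m ≤ n := h.2 (len_down n hn)
    omega

lemma t_pow (n : ℤ) : ((t : L G) ^ n) = ⟨Finsupp.single 1 n, 1⟩ := by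
  have h4 : ∀ n : ℕ, ((t : L G) ^ n) = ⟨Finsupp.single 1 (n : ℤ), 1⟩ := by
    intro n
    induction n with
    | zero =>
      ext1
      · simp
      · simp
    | succ n ih =>
      rw [pow_succ, ih]
      ext1
      · simp only [mul_a, t, sh_one]
        rw [← Finsupp.single_add]
        push_cast
        rfl
      · simp [t]
  rcases Int.eq_nat_or_neg n with ⟨k, rfl | rfl⟩
  · rw [zpow_natCast, h4]
  · rw [zpow_neg, zpow_natCast, h4]
    ext1
    · simp [sh_one]
    · simp

lemma fg (h : Group.FG G) : Group.FG (L G) := by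
  obtain ⟨S, hS⟩ := Group.fg_def.mp h
  classical
  rw [Group.fg_def]
  refine ⟨insert t (S.image (inr : G →* L G)), ?_⟩
  set K := Subgroup.closure ((insert t (S.image (inr : G →* L G)) : Finset (L G)) : Set (L G))
    with hK
  have ht : t ∈ K := Subgroup.subset_closure (by simp)
  have h1 : ∀ g : G, inr g ∈ K := by
    intro g
    have h2 : (⊤ : Subgroup G) ≤ K.comap inr := by
      rw [← hS, Subgroup.closure_le]
      intro s hs
      apply Subgroup.subset_closure
      simp only [Finset.coe_insert, Finset.coe_image]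
      exact Or.inr ⟨s, hs, rfl⟩
    exact h2 (Subgroup.mem_top g)
  have hb : ∀ x : G →₀ ℤ, (⟨x, 1⟩ : L G) ∈ K := by
    intro x
    induction x using Finsupp.induction_linear with
    | zero => exact K.one_mem
    | add x y hx hy =>
      have h2 := K.mul_mem hx hy
      have h3 : (⟨x, 1⟩ : L G) * ⟨y, 1⟩ = ⟨x + y, 1⟩ := by
        ext1
        · simp [sh_one]
        · simp
      rw [h3] at h2
      exact h2
    | single g n =>
      have h5 : (⟨Finsupp.single g n, 1⟩ : L G) = inr g * t ^ n * (inr g)⁻¹ := by
        rw [t_pow]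
        ext1
        · simp [sh_single, sh_zero]
        · simp
      rw [h5]
      exact K.mul_mem (K.mul_mem (h1 g) (K.zpow_mem ht n)) (K.inv_mem (h1 g))
  rw [eq_top_iff]
  intro x _
  have h2 : x = ⟨x.a, 1⟩ * inr x.g := by
    ext1
    · simp [sh_zero]
    · simp
  rw [h2]
  exact K.mul_mem (hb _) (h1 _)

/-- The inductive step. -/
lemma step (k m : ℕ) (h : ∀ (H : Type v) [Group H], derivedSeries H m = ⊥ → Generated k H →
      ∀ φ : G →* H, ¬ Function.Injective φ) (H : Type v) [Group H]
    (hH : derivedSeries H (m + 1) = ⊥) (hk : Generated k H) (φ : L G →* H) :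
    ¬ Function.Injective φ := by
  intro hφ
  have hN : (derivedSeries H m).Normal := derivedSeries_normal _ _
  let A : Subgroup (L G) := (derivedSeries H m).comap φ
  have hA := abelian_normal A (hN.comap φ) (by
    intro x hx y hy
    apply hφ
    rw [map_mul, map_mul]
    exact bot_comm m hH _ hx _ hy)
  let Q := H ⧸ derivedSeries H m
  let π : H →* Q := QuotientGroup.mk' (derivedSeries H m)
  have hπ : Function.Surjective π := QuotientGroup.mk'_surjective _
  refine h Q ?_ ?_ (π.comp (φ.comp inr)) ?_
  · rw [← map_derivedSeries_eq hπ m, eq_bot_iff]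
    rintro _ ⟨x, hx, rfl⟩
    rw [Subgroup.mem_bot]
    exact (QuotientGroup.eq_one_iff x).2 hx
  · obtain ⟨f, hf⟩ := hk
    refine ⟨fun i => π (f i), ?_⟩
    have h1 : Set.range (fun i => π (f i)) = π '' Set.range f := by
      rw [← Set.range_comp]
      rfl
    rw [h1, ← MonoidHom.map_closure, hf]
    exact Subgroup.map_top_of_surjective π hπ
  · rw [injective_iff_map_eq_one]
    intro g hg
    have h1 : φ (inr g) ∈ derivedSeries H m := (QuotientGroup.eq_one_iff _).1 hg
    exact hA (inr g) h1

end L

/-- The base of the induction: `ℤ ^ (k + 1)` is not a subgroup of a `k`-generated abelian group. -/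
lemma base (k : ℕ) (H : Type v) [Group H] (hH : derivedSeries H 1 = ⊥) (hk : Generated k H)
    (φ : Multiplicative (Fin (k + 1) → ℤ) →* H) : ¬ Function.Injective φ := by
  intro hφ
  have hc : ∀ x y : H, x * y = y * x := by
    intro x y
    exact L.bot_comm 0 hH x (by simp) y (by simp)
  let _ : CommGroup H := { (inferInstance : Group H) with mul_comm := hc }
  obtain ⟨f, hf⟩ := hk
  let F : (Fin k → ℤ) →+ Additive H :=
    { toFun := fun x => ∑ i, x i • Additive.ofMul (f i)
      map_zero' := by simp
      map_add' := by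
        intro x y
        rw [← Finset.sum_add_distrib]
        apply Finset.sum_congr rfl
        intro i _
        rw [Pi.add_apply, add_smul] }
  let Fl : (Fin k → ℤ) →ₗ[ℤ] Additive H := F.toIntLinearMap
  let φl : (Fin (k + 1) → ℤ) →ₗ[ℤ] Additive H := (MonoidHom.toAdditiveRight φ).toIntLinearMap
  have hF : Function.Surjective Fl := by
    intro y
    have hy : Additive.toMul y ∈ Subgroup.closure (Set.range f) := by rw [hf]; exact Subgroup.mem_top _
    have key : ∀ h ∈ Subgroup.closure (Set.range f), ∃ x, F x = Additive.ofMul h := by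
      intro h hh
      induction hh using Subgroup.closure_induction with
      | mem h hh =>
        obtain ⟨i, rfl⟩ := hh
        refine ⟨Pi.single i 1, ?_⟩
        change ∑ j, (Pi.single i 1 : Fin k → ℤ) j • Additive.ofMul (f j) = Additive.ofMul (f i)
        rw [Finset.sum_eq_single i]
        · simp
        · intro j _ hj
          simp [hj]
        · simp
      | one => exact ⟨0, by simp⟩
      | mul a b _ _ ha hb =>
        obtain ⟨x, hx⟩ := ha
        obtain ⟨z, hz⟩ := hb
        exact ⟨x + z, by rw [map_add, hx, hz]; rfl⟩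
      | inv a _ ha =>
        obtain ⟨x, hx⟩ := ha
        exact ⟨-x, by rw [map_neg, hx]; rfl⟩
    exact key _ hy
  obtain ⟨e, he⟩ := Module.projective_lifting_property Fl φl hF
  have hinj : Function.Injective e := by
    intro x y hxy
    have h1 : φl x = φl y := by
      rw [← he, LinearMap.comp_apply, LinearMap.comp_apply, hxy]
    exact Multiplicative.ofAdd.injective (hφ h1)
  have h2 := le_of_fin_injective ℤ e hinj
  omega

/-- The groups which need the additional step of the derived series. -/
lemma witness (k : ℕ) (l : ℕ) : ∃ (G : Type) (_ : Group G), Group.FG G ∧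
    HasDerivedLength G (l + 1) ∧ ∀ (H : Type v) [Group H], derivedSeries H (l + 1) = ⊥ →
      Generated k H → ∀ φ : G →* H, ¬ Function.Injective φ := by
  induction l with
  | zero =>
    refine ⟨Multiplicative (Fin (k + 1) → ℤ), inferInstance, ?_, ?_, ?_⟩
    · have h : AddGroup.FG (Fin (k + 1) → ℤ) := Module.Finite.iff_addGroup_fg.1 inferInstance
      exact AddGroup.fg_iff_mul_fg.1 h
    · refine ⟨?_, ?_⟩
      · change derivedSeries _ 1 = ⊥
        rw [eq_bot_iff, derivedSeries_one, commutator_def, Subgroup.commutator_le]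
        intro a _ b _
        rw [Subgroup.mem_bot, commutatorElement_eq_one_iff_mul_comm, mul_comm]
      · intro m hm
        rcases m with _ | m
        · exfalso
          have h1 : derivedSeries (Multiplicative (Fin (k + 1) → ℤ)) 0 = ⊥ := hm
          rw [derivedSeries_zero] at h1
          have h2 : (Multiplicative.ofAdd (fun _ => (1 : ℤ)) : Multiplicative (Fin (k + 1) → ℤ)) ∈
            (⊤ : Subgroup (Multiplicative (Fin (k + 1) → ℤ))) := Subgroup.mem_top _
          rw [h1, Subgroup.mem_bot] at h2
          have h3 := congrFun (Multiplicative.ofAdd.injective (h2.trans ofAdd_zero.symm)) 0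
          simp at h3
        · omega
    · intro H _ hH hk φ
      exact base k H hH hk φ
  | succ l ih =>
    obtain ⟨G, hG, h1, h2, h3⟩ := ih
    exact ⟨L G, inferInstance, L.fg h1, L.len _ h2, fun H _ hH hk φ => L.step k (l + 1) h3 H hH hk φ⟩

/-! ## Periodic functions -/

/-- `B j` is periodic modulo `e`. -/
lemma B_per (e : ℕ) (j : ℕ) (k : ℤ) : (e : ℤ) ∣ B j (k + e ^ j) - B j k := by
  induction j generalizing k with
  | zero => simp [B_zero]
  | succ j ih =>
    have h1 : ∀ k : ℤ, (e : ℤ) ∣ (B (j + 1) (k + 1 + e ^ j) - B (j + 1) (k + 1)) -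
        (B (j + 1) (k + e ^ j) - B (j + 1) k) := by
      intro k
      have h2 := B_succ j (k + 1)
      have h3 := B_succ j (k + 1 + e ^ j)
      have h4 := ih (k + 1)
      have h5 : k + 1 - 1 = k := by ring
      have h6 : k + 1 + (e : ℤ) ^ j - 1 = k + e ^ j := by ring
      rw [h5] at h2
      rw [h6] at h3
      have h7 : (B (j + 1) (k + 1 + e ^ j) - B (j + 1) (k + 1)) -
        (B (j + 1) (k + e ^ j) - B (j + 1) k) = - (B j (k + 1 + e ^ j) - B j (k + 1)) := by
        linarith
      rw [h7]
      exact (dvd_neg).2 h4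
    have h2 : ∀ (k : ℤ) (m : ℕ), (e : ℤ) ∣ (B (j + 1) (k + m + e ^ j) - B (j + 1) (k + m)) -
        (B (j + 1) (k + e ^ j) - B (j + 1) k) := by
      intro k m
      induction m with
      | zero => simp
      | succ m ihm =>
        have h3 := dvd_add (h1 (k + m)) ihm
        have h4 : k + ((m + 1 : ℕ) : ℤ) = k + m + 1 := by push_cast; ring
        rw [h4]
        rwa [sub_add_sub_cancel] at h3
    have h3 : ∀ m : ℕ, (e : ℤ) ∣ (B (j + 1) (k + m * e ^ j) - B (j + 1) k) -
        m * (B (j + 1) (k + e ^ j) - B (j + 1) k) := by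
      intro m
      induction m with
      | zero => simp
      | succ m ihm =>
        have h4 := h2 k (m * e ^ j)
        have h5 := dvd_add h4 ihm
        have h6 : k + ((m * e ^ j : ℕ) : ℤ) + (e : ℤ) ^ j = k + ((m + 1 : ℕ) : ℤ) * e ^ j := by
          push_cast; ring
        have h7 : k + ((m * e ^ j : ℕ) : ℤ) = k + (m : ℤ) * e ^ j := by push_cast; ring
        rw [h6, h7] at h5
        have h8 : (B (j + 1) (k + ((m + 1 : ℕ) : ℤ) * e ^ j) - B (j + 1) k) -
            ((m + 1 : ℕ) : ℤ) * (B (j + 1) (k + e ^ j) - B (j + 1) k) =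
            B (j + 1) (k + ((m + 1 : ℕ) : ℤ) * e ^ j) - B (j + 1) (k + m * e ^ j) -
            (B (j + 1) (k + e ^ j) - B (j + 1) k) +
            (B (j + 1) (k + m * e ^ j) - B (j + 1) k -
            m * (B (j + 1) (k + e ^ j) - B (j + 1) k)) := by
          push_cast
          ring
        rw [h8]
        exact h5
    have h4 := h3 e
    have h5 : (e : ℤ) ∣ (e : ℤ) * (B (j + 1) (k + e ^ j) - B (j + 1) k) := dvd_mul_right _ _
    have h6 := dvd_add h4 h5
    rw [sub_add_cancel] at h6
    rw [pow_succ']
    exact h6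

lemma B_per' (e n j : ℕ) (hj : j ≤ n) (k : ℤ) (c : ℕ) :
    (e : ℤ) ∣ B j (k + (c * e ^ n : ℕ)) - B j k := by
  have h1 : ∀ m : ℕ, (e : ℤ) ∣ B j (k + m * e ^ j) - B j k := by
    intro m
    induction m with
    | zero => simp
    | succ m ih =>
      have h2 := dvd_add (B_per e j (k + m * e ^ j)) ih
      rw [sub_add_sub_cancel] at h2
      have h3 : k + (m : ℤ) * e ^ j + e ^ j = k + ((m + 1 : ℕ) : ℤ) * e ^ j := by push_cast; ring
      rwa [h3] at h2
  have h2 := h1 (c * e ^ (n - j))
  have h3 : ((c * e ^ (n - j) : ℕ) : ℤ) * e ^ j = ((c * e ^ n : ℕ) : ℤ) := by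
    push_cast
    rw [mul_assoc, ← pow_add, Nat.sub_add_cancel hj]
  rwa [h3] at h2

section per

variable {Q : Type u} [Group Q]

/-- values of the base component -/
def lf (w : W Q) (u v : ℤ) : Q := w.left (Multiplicative.ofAdd (u, v))

/-- first coordinate of the translation -/
def r1 (w : W Q) : ℤ := (Multiplicative.toAdd w.right).1

/-- second coordinate of the translation -/
def r2 (w : W Q) : ℤ := (Multiplicative.toAdd w.right).2

lemma lf_mul (a b : W Q) (u v : ℤ) : lf (a * b) u v = lf a u v * lf b (u - r1 a) (v - r2 a) := by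
  unfold lf r1 r2
  rw [RegularWreathProduct.mul_left, Pi.mul_apply]
  congr 2
  rw [← ofAdd_toAdd a.right, ← ofAdd_neg, ← ofAdd_add]
  congr 1
  ext
  · simp; ring
  · simp; ring

lemma lf_inv (a : W Q) (u v : ℤ) : lf a⁻¹ u v = (lf a (u + r1 a) (v + r2 a))⁻¹ := by
  unfold lf r1 r2
  rw [RegularWreathProduct.inv_left]
  simp only [Pi.inv_apply]
  congr 2
  rw [← ofAdd_toAdd a.right, ← ofAdd_add]
  congr 1
  ext
  · simp; ring
  · simp; ring

lemma lf_one (u v : ℤ) : lf (1 : W Q) u v = 1 := rfl

lemma r1_mul (a b : W Q) : r1 (a * b) = r1 a + r1 b := rfl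
lemma r2_mul (a b : W Q) : r2 (a * b) = r2 a + r2 b := rfl
lemma r1_inv (a : W Q) : r1 a⁻¹ = - r1 a := rfl
lemma r2_inv (a : W Q) : r2 a⁻¹ = - r2 a := rfl

/-- The elements with a base component that is periodic with period `M` in both coordinates. -/
def Per (Q : Type u) [Group Q] (M : ℕ) : Subgroup (W Q) where
  carrier := {w | ∀ u v : ℤ, lf w (u + M) v = lf w u v ∧ lf w u (v + M) = lf w u v}
  one_mem' := fun u v => ⟨rfl, rfl⟩
  mul_mem' := by
    intro a b ha hb u v
    rw [lf_mul, lf_mul, lf_mul, (ha u v).1, (ha u v).2]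
    have h1 : u + (M : ℤ) - r1 a = (u - r1 a) + M := by ring
    have h2 : v + (M : ℤ) - r2 a = (v - r2 a) + M := by ring
    rw [h1, h2, (hb _ _).1, (hb _ _).2]
    exact ⟨rfl, rfl⟩
  inv_mem' := by
    intro a ha u v
    rw [lf_inv, lf_inv, lf_inv]
    have h1 : u + (M : ℤ) + r1 a = (u + r1 a) + M := by ring
    have h2 : v + (M : ℤ) + r2 a = (v + r2 a) + M := by ring
    rw [h1, h2, (ha _ _).1, (ha _ _).2]
    exact ⟨rfl, rfl⟩

lemma per_congr {M : ℕ} {w : W Q} (hw : w ∈ Per Q M) {u u' v v' : ℤ}
    (hu : ((u : ℤ) : ZMod M) = u') (hv : ((v : ℤ) : ZMod M) = v') : lf w u v = lf w u' v' := by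
  have h1 : ∀ (v : ℤ), Function.Periodic (fun u => lf w u v) (M : ℤ) := fun v u => (hw u v).1
  have h2 : ∀ (u : ℤ), Function.Periodic (fun v => lf w u v) (M : ℤ) := fun u v => (hw u v).2
  have hu' : (M : ℤ) ∣ u - u' := by
    rw [← ZMod.intCast_zmod_eq_zero_iff_dvd]
    push_cast
    rw [hu, sub_self]
  have hv' : (M : ℤ) ∣ v - v' := by
    rw [← ZMod.intCast_zmod_eq_zero_iff_dvd]
    push_cast
    rw [hv, sub_self]
  obtain ⟨a, ha⟩ := hu'
  obtain ⟨b, hb⟩ := hv'
  have h3 : u = u' + a * M := by linarith
  have h4 : v = v' + b * M := by linarith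
  rw [h3, h4]
  have h5 := (h1 (v' + b * M)).int_mul a u'
  have h6 := (h2 u').int_mul b v'
  exact h5.trans h6

/-- The finite wreath product. -/
abbrev FW (Q : Type u) [Group Q] (M : ℕ) : Type u :=
  RegularWreathProduct Q (Multiplicative (ZMod M × ZMod M))

/-- Reduction modulo `M`. -/
noncomputable def red (M : ℕ) [NeZero M] : Per Q M →* FW Q M where
  toFun w := ⟨fun q => lf w.1 ((Multiplicative.toAdd q).1.val : ℤ)
    ((Multiplicative.toAdd q).2.val : ℤ), Multiplicative.ofAdd ((r1 w.1 : ZMod M), (r2 w.1 : ZMod M))⟩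
  map_one' := by
    apply RegularWreathProduct.ext
    · rfl
    · simp [r1, r2]
  map_mul' a b := by
    apply RegularWreathProduct.ext
    · funext q
      rw [RegularWreathProduct.mul_left, Pi.mul_apply]
      simp only [Subgroup.coe_mul]
      rw [lf_mul]
      congr 1
      apply per_congr b.2
      · simp [sub_eq_neg_add]
      · simp [sub_eq_neg_add]
    · simp [r1_mul, r2_mul, ← ofAdd_add]

lemma el_lf (g : ℕ → Q) (n : ℕ) (E : ℕ → ℤ → ℤ → ℤ) (u v : ℤ) :
    lf (el g n E) u v = g (u % n).toNat ^ E (u % n).toNat (u / n) v := rfl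

lemma gen_per (g : ℕ → Q) (n e M : ℕ) (hn : 0 < n) (he : ∀ a : Q, a ^ e = 1)
    (hM : n * e ^ n ∣ M) : H g n ≤ Per Q M := by
  obtain ⟨c, rfl⟩ := hM
  have hD : el g n (D n) ∈ Per Q (n * e ^ n * c) := by
    intro u v
    rw [el_lf, el_lf, el_lf]
    have hnz : (n : ℤ) ≠ 0 := by exact_mod_cast hn.ne'
    have h1 : (u + ((n * e ^ n * c : ℕ) : ℤ)) % n = u % n := by
      have : u + ((n * e ^ n * c : ℕ) : ℤ) = u + n * (e ^ n * c) := by push_cast; ring
      rw [this, Int.add_mul_emod_self_left]
    have h2 : (u + ((n * e ^ n * c : ℕ) : ℤ)) / n = u / n + ((c * e ^ n : ℕ) : ℤ) := by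
      have : u + ((n * e ^ n * c : ℕ) : ℤ) = u + n * ((c * e ^ n : ℕ) : ℤ) := by push_cast; ring
      rw [this, Int.add_mul_ediv_left _ _ hnz]
    have h3 : (u % n).toNat < n := by
      have h4 : 0 ≤ u % (n : ℤ) := Int.emod_nonneg u hnz
      have h5 : u % (n : ℤ) < n := Int.emod_lt_of_pos u (by exact_mod_cast hn)
      omega
    have hpow : ∀ (a : Q) (x y : ℤ), (e : ℤ) ∣ x - y → a ^ x = a ^ y := by
      intro a x y ⟨z, hz⟩
      have h4 : x = y + e * z := by linarith
      rw [h4, zpow_add, zpow_mul, zpow_natCast, he, one_zpow, mul_one]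
    rw [h1, h2]
    constructor
    · apply hpow
      unfold D
      rw [← sub_mul]
      exact Dvd.dvd.mul_right (B_per' e n _ (by omega) _ c) _
    · apply hpow
      unfold D
      rw [← mul_sub]
      apply Dvd.dvd.mul_left
      have h6 : ((n * e ^ n * c : ℕ) : ℤ) = ((n * c * e ^ n : ℕ) : ℤ) := by push_cast; ring
      rw [h6]
      exact B_per' e n _ (by omega) _ (n * c)
  unfold H
  rw [Subgroup.closure_le]
  intro w hw
  rcases hw with rfl | rfl
  · intro u v
    exact ⟨rfl, rfl⟩
  · refine (Per Q _).mul_mem ?_ hD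
    intro u v
    exact ⟨rfl, rfl⟩

end per

section maps

variable {G : Type u} {Q : Type v} [Group G] [Group Q]

/-- The homomorphism of wreath products given by a homomorphism of the base groups. -/
def mapW (f : G →* Q) : W G →* W Q where
  toFun w := ⟨fun q => f (w.left q), w.right⟩
  map_one' := by
    apply RegularWreathProduct.ext
    · funext q
      simp
    · rfl
  map_mul' a b := by
    apply RegularWreathProduct.ext
    · funext q
      simp
    · rfl

lemma map_el (f : G →* Q) (g : ℕ → G) (n : ℕ) (E : ℕ → ℤ → ℤ → ℤ) :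
    mapW f (el g n E) = el (fun i => f (g i)) n E := by
  apply RegularWreathProduct.ext
  · funext q
    change f (g _ ^ _) = _
    rw [map_zpow]
    rfl
  · rfl

lemma map_tr (f : G →* Q) (a b : ℤ) : mapW f (tr a b) = tr a b := by
  apply RegularWreathProduct.ext
  · funext q
    change f 1 = 1
    rw [map_one]
  · rfl

lemma map_H (f : G →* Q) (g : ℕ → G) (n : ℕ) : H g n ≤ (H (fun i => f (g i)) n).comap (mapW f) := by
  rw [H, Subgroup.closure_le]
  intro w hw
  rcases hw with rfl | rfl
  · change mapW f (tr 1 0) ∈ H (fun i => f (g i)) n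
    rw [map_tr]
    exact x_mem _ n
  · change mapW f (tr 0 1 * el g n (D n)) ∈ H (fun i => f (g i)) n
    rw [map_mul, map_tr, map_el]
    exact y_mem _ n

/-- The finite images of the two-generated group. -/
noncomputable def theta (f : G →* Q) (g : ℕ → G) (n e M : ℕ) [NeZero M] (hn : 0 < n)
    (he : ∀ a : Q, a ^ e = 1) (hM : n * e ^ n ∣ M) : H g n →* FW Q M :=
  (red M).comp (((mapW f).comp (H g n).subtype).codRestrict (Per Q M) (fun w =>
    gen_per (fun i => f (g i)) n e M hn he hM (map_H f g n w.2)))

lemma theta_left (f : G →* Q) (g : ℕ → G) (n e M : ℕ) [NeZero M] (hn : 0 < n)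
    (he : ∀ a : Q, a ^ e = 1) (hM : n * e ^ n ∣ M) (w : H g n) (u v : ℤ) :
    (theta f g n e M hn he hM w).left (Multiplicative.ofAdd ((u : ZMod M), (v : ZMod M))) =
      f (lf w.1 u v) := by
  change lf (mapW f w.1) (((u : ZMod M).val : ℕ) : ℤ) (((v : ZMod M).val : ℕ) : ℤ) = _
  have h := gen_per (fun i => f (g i)) n e M hn he hM (map_H f g n w.2)
  rw [per_congr (u' := u) (v' := v) h (by simp) (by simp)]
  rfl

lemma theta_right (f : G →* Q) (g : ℕ → G) (n e M : ℕ) [NeZero M] (hn : 0 < n)
    (he : ∀ a : Q, a ^ e = 1) (hM : n * e ^ n ∣ M) (w : H g n) :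
    (theta f g n e M hn he hM w).right =
      Multiplicative.ofAdd ((r1 w.1 : ZMod M), (r2 w.1 : ZMod M)) := rfl

end maps

lemma tors (G : Type u) [Group G] (hG : TorsionFree G) (K : Subgroup (W G)) : TorsionFree K := by
  intro a ha k hk h
  apply ha
  have h0 : (a : W G) ^ k = 1 := by
    rw [← Subgroup.coe_pow, h, Subgroup.coe_one]
  have hr : (a : W G).right = 1 := by
    have h1 : ((a : W G).right) ^ k = 1 := by
      have h2 := congrArg (RegularWreathProduct.rightHom (D := G)) h0
      rw [map_pow, map_one] at h2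
      exact h2
    have h3 : k • Multiplicative.toAdd ((a : W G).right) = 0 := by
      rw [← toAdd_pow, h1, toAdd_one]
    have h4 : Multiplicative.toAdd ((a : W G).right) = 0 := by
      rcases smul_eq_zero.1 h3 with h5 | h5
      · omega
      · exact h5
    exact Multiplicative.toAdd.injective h4
  have hl : ∀ (m : ℕ) (q), ((a : W G) ^ m).left q = ((a : W G).left q) ^ m := by
    intro m
    induction m with
    | zero => intro q; simp
    | succ m ih =>
      intro q
      rw [pow_succ', RegularWreathProduct.mul_left, Pi.mul_apply, hr, pow_succ', inv_one, one_mul,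
        ih]
  apply Subtype.ext
  apply RegularWreathProduct.ext
  · funext q
    by_contra hq
    refine hG _ hq k hk ?_
    rw [← hl, h0]
    rfl
  · exact hr

lemma rf (G : Type u) [Group G] (hG : ResiduallyFinite G) (g : ℕ → G) (n : ℕ) (hn : 0 < n) :
    ResiduallyFinite (H g n) := by
  intro w hw
  by_cases hr : (w : W G).right = 1
  · -- a value of the base component is not trivial
    have h1 : ∃ u v : ℤ, lf w.1 u v ≠ 1 := by
      by_contra hcon
      push Not at hcon
      apply hw
      apply Subtype.ext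
      exact W_ext (fun u v => hcon u v) hr
    obtain ⟨u, v, huv⟩ := h1
    obtain ⟨N, hN, hfin, hnot⟩ := hG _ huv
    have : Finite (G ⧸ N) := Subgroup.finite_quotient_of_finiteIndex
    set e := Nat.card (G ⧸ N) with he
    have he0 : 0 < e := Nat.card_pos
    have : NeZero (n * e ^ n) := ⟨by positivity⟩
    have he' : ∀ a : G ⧸ N, a ^ e = 1 := fun a => pow_card_eq_one'
    let T := theta (QuotientGroup.mk' N) g n e (n * e ^ n) hn he' dvd_rfl
    have : Finite (FW (G ⧸ N) (n * e ^ n)) := Finite.of_equiv _
      (RegularWreathProduct.equivProd (G ⧸ N) (Multiplicative (ZMod (n * e ^ n) × ZMod (n * e ^ n)))).symm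
    refine ⟨T.ker, inferInstance, inferInstance, ?_⟩
    intro hk
    rw [MonoidHom.mem_ker] at hk
    have h2 := theta_left (QuotientGroup.mk' N) g n e (n * e ^ n) hn he' dvd_rfl w u v
    have h3 : (theta (QuotientGroup.mk' N) g n e (n * e ^ n) hn he' dvd_rfl w) = 1 := hk
    rw [h3] at h2
    apply hnot
    rw [← QuotientGroup.eq_one_iff]
    exact h2.symm
  · -- the translation is not trivial
    have h1 : ∃ M : ℕ, ∃ _ : NeZero M,
        ¬ (((r1 w.1 : ℤ) : ZMod M) = 0 ∧ ((r2 w.1 : ℤ) : ZMod M) = 0) := by
      refine ⟨(r1 w.1).natAbs + (r2 w.1).natAbs + 1, ⟨by omega⟩, ?_⟩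
      rintro ⟨h1, h2⟩
      rw [ZMod.intCast_zmod_eq_zero_iff_dvd] at h1 h2
      have h3 : r1 w.1 = 0 := by
        apply Int.eq_zero_of_abs_lt_dvd h1
        rw [Int.abs_eq_natAbs]
        omega
      have h4 : r2 w.1 = 0 := by
        apply Int.eq_zero_of_abs_lt_dvd h2
        rw [Int.abs_eq_natAbs]
        omega
      apply hr
      apply Multiplicative.toAdd.injective
      exact Prod.ext h3 h4
    obtain ⟨M, hM0, hM⟩ := h1
    let T : H g n →* Multiplicative (ZMod M × ZMod M) :=
      { toFun := fun w => Multiplicative.ofAdd ((r1 w.1 : ZMod M), (r2 w.1 : ZMod M))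
        map_one' := by simp [r1, r2]
        map_mul' := by
          intro a b
          simp [r1_mul, r2_mul, ← ofAdd_add] }
    refine ⟨T.ker, inferInstance, inferInstance, ?_⟩
    intro hk
    rw [MonoidHom.mem_ker] at hk
    apply hM
    have h2 := Multiplicative.ofAdd.injective (hk.trans ofAdd_zero.symm)
    exact ⟨congrArg Prod.fst h2, congrArg Prod.snd h2⟩

lemma gen_map {K : Type u} {K' : Type v} [Group K] [Group K'] (k : ℕ) (hk : Generated k K)
    (f : K →* K') (hf : Function.Surjective f) : Generated k K' := by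
  obtain ⟨x, hx⟩ := hk
  refine ⟨fun i => f (x i), ?_⟩
  have h1 : Set.range (fun i => f (x i)) = f '' Set.range x := by
    rw [← Set.range_comp]
    rfl
  rw [h1, ← MonoidHom.map_closure, hx]
  exact Subgroup.map_top_of_surjective f hf

lemma gen_two {G : Type u} [Group G] (g : ℕ → G) (n : ℕ) : Generated 2 (H g n) := by
  refine ⟨![⟨_, x_mem g n⟩, ⟨_, y_mem g n⟩], ?_⟩
  have h := Subgroup.closure_closure_coe_preimage
    (k := ({tr 1 0, tr 0 1 * el g n (D n)} : Set (W G)))
  have h2 : (Subtype.val ⁻¹' ({tr 1 0, tr 0 1 * el g n (D n)} : Set (W G)) : Set (H g n)) =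
      Set.range ![⟨_, x_mem g n⟩, ⟨_, y_mem g n⟩] := by
    rw [Matrix.range_cons, Matrix.range_cons, Matrix.range_empty, Set.union_empty]
    ext ⟨w, hw⟩
    simp [Subtype.ext_iff, or_comm]
  rw [← h2]
  exact h

/-- The main part: the group `H`. -/
theorem embedding (G : Type u) [Group G] (hfg : Group.FG G) :
    ∃ (H : Type u) (_ : Group H) (ι : Type) (φ : G →* H) (ψ : commutator H →* (ι → G)),
      Countable ι ∧ Generated 2 H ∧ Function.Injective φ ∧ (∀ g, φ g ∈ commutator H) ∧
      Function.Injective ψ ∧ (Finite G → Finite H ∧ Finite ι) ∧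
      (ResiduallyFinite G → ResiduallyFinite H) ∧ (TorsionFree G → TorsionFree H) := by
  rcases subsingleton_or_nontrivial G with hsub | hnt
  · let ψ : commutator G →* (Unit → G) := 1
    refine ⟨G, inferInstance, Unit, MonoidHom.id G, ψ, inferInstance, ⟨fun _ => 1, ?_⟩,
      fun a b _ => Subsingleton.elim a b, ?_, fun a b _ => Subsingleton.elim a b,
      fun h => ⟨h, inferInstance⟩, id, id⟩
    · exact Subsingleton.elim _ _
    · intro g
      have : (MonoidHom.id G) g = 1 := Subsingleton.elim _ _
      rw [this]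
      exact one_mem _
  obtain ⟨g, n, hg⟩ : ∃ (g : ℕ → G) (n : ℕ), Subgroup.closure (g '' {i | i < n}) = ⊤ := by
    obtain ⟨s, hs⟩ := (Group.fg_def.mp hfg)
    classical
    refine ⟨fun i => if h : i < s.card then (s.equivFin.symm ⟨i, h⟩ : G) else 1, s.card, ?_⟩
    rw [← hs]
    congr 1
    ext a
    constructor
    · rintro ⟨i, hi, rfl⟩
      have hi' : i < s.card := hi
      simp only [dif_pos hi']
      exact (s.equivFin.symm ⟨i, hi'⟩).2
    · intro ha
      refine ⟨(s.equivFin ⟨a, ha⟩ : ℕ), (s.equivFin ⟨a, ha⟩).2, ?_⟩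
      simp
  have hn : 0 < n := by
    rcases Nat.eq_zero_or_pos n with h0 | h0
    · exfalso
      rw [h0] at hg
      simp only [not_lt_zero, Set.ofPred_false, Set.image_empty, Subgroup.closure_empty] at hg
      exact bot_ne_top hg
    · exact h0
  let j : G →* H g n := (emb n).codRestrict (H g n) (fun a => comm_le g n (emb_mem g n hg a))
  have hj : Function.Injective j := by
    intro a b hab
    apply emb_injective n
    exact congrArg Subtype.val hab
  have hjc : ∀ a, j a ∈ commutator (H g n) := by
    intro a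
    have h1 : (j a : W G) ∈ (commutator (H g n)).map (H g n).subtype := by
      rw [Subgroup.map_subtype_commutator]
      exact emb_mem g n hg a
    obtain ⟨c, hc, hc'⟩ := h1
    have : c = j a := Subtype.val_injective hc'
    rwa [← this]
  by_cases hfin : Finite G
  · set e := Nat.card G with he
    have he0 : 0 < e := Nat.card_pos
    have : NeZero (n * e ^ n) := ⟨by positivity⟩
    have he' : ∀ a : G, a ^ e = 1 := fun a => pow_card_eq_one'
    let T := theta (MonoidHom.id G) g n e (n * e ^ n) hn he' dvd_rfl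
    have hF : Finite (FW G (n * e ^ n)) := Finite.of_equiv _ (RegularWreathProduct.equivProd G
      (Multiplicative (ZMod (n * e ^ n) × ZMod (n * e ^ n)))).symm
    refine ⟨T.range, inferInstance, Multiplicative (ZMod (n * e ^ n) × ZMod (n * e ^ n)),
      T.rangeRestrict.comp j, psi T.range, inferInstance,
      gen_map 2 (gen_two g n) T.rangeRestrict T.rangeRestrict_surjective, ?_, ?_, psi_inj _,
      fun _ => ⟨inferInstance, inferInstance⟩, ?_, ?_⟩
    · intro a b hab
      have h1 : T (j a) = T (j b) := congrArg Subtype.val hab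
      have h2 := theta_left (MonoidHom.id G) g n e (n * e ^ n) hn he' dvd_rfl (j a) 0 0
      have h3 := theta_left (MonoidHom.id G) g n e (n * e ^ n) hn he' dvd_rfl (j b) 0 0
      have h4 : ∀ c : G, (MonoidHom.id G) (lf (j c).1 0 0) = c := by
        intro c
        change (if (n : ℤ) ∣ 0 then c else 1) = c
        simp
      rw [h4] at h2 h3
      rw [← h2, ← h3]
      exact congrArg (fun z => RegularWreathProduct.left z _) h1
    · intro a
      have h1 := map_derivedSeries_le_derivedSeries T.rangeRestrict 1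
        ⟨j a, by rw [derivedSeries_one]; exact hjc a, rfl⟩
      rw [derivedSeries_one] at h1
      exact h1
    · intro _ a ha
      exact ⟨⊥, inferInstance, inferInstance, by rwa [Subgroup.mem_bot]⟩
    · intro htf
      obtain ⟨a, ha⟩ := exists_ne (1 : G)
      exact absurd (he' a) (htf a ha e he0)
  · exact ⟨H g n, inferInstance, Multiplicative (ℤ × ℤ), j, psi _,
      (inferInstance : Countable (ℤ × ℤ)), gen_two g n, hj, hjc, psi_inj _,
      fun h => absurd h hfin, fun h => rf G h g n hn, fun h => tors G h _⟩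

/-- **Sharp embedding theorem.** (1) The answer to Q1 (for all `l ≥ 1`). (2) Every finitely
generated group `G` embeds in the derived subgroup of a two-generated group `H`, the derived
subgroup of `H` embeds in a Cartesian power of `G` (so that it has the same laws as `G`), the
derived lengths differ by one, and `H` is finite, residually finite or torsion-free if `G` is.
(3) For all `k` and `l ≥ 1` there is a finitely generated group of derived length `l` that does not
embed in any `k`-generated group of derived length at most `l`. -/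
theorem result :
    (∀ l : ℕ, 1 ≤ l → ∀ (G : Type u) [Group G], Group.FG G → HasDerivedLength G l →
      ∃ (H : Type u) (_ : Group H), Generated 2 H ∧ HasDerivedLength H (l + 1) ∧
        ∃ φ : G →* H, Function.Injective φ) ∧
    (∀ (G : Type u) [Group G], Group.FG G →
      ∃ (H : Type u) (_ : Group H) (ι : Type) (φ : G →* H) (ψ : commutator H →* (ι → G)),
        Countable ι ∧ Generated 2 H ∧ Function.Injective φ ∧ (∀ g, φ g ∈ commutator H) ∧
        Function.Injective ψ ∧ SameLaws G (commutator H) ∧
        (∀ l, 1 ≤ l → (HasDerivedLength G l ↔ HasDerivedLength H (l + 1))) ∧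
        (Finite G → Finite H ∧ Finite ι) ∧
        (ResiduallyFinite G → ResiduallyFinite H) ∧ (TorsionFree G → TorsionFree H)) ∧
    (∀ k l : ℕ, 1 ≤ l → ∃ (G : Type) (_ : Group G), Group.FG G ∧ HasDerivedLength G l ∧
      ∀ (H : Type v) [Group H], derivedSeries H l = ⊥ → Generated k H →
        ∀ φ : G →* H, ¬ Function.Injective φ) := by
  refine ⟨?_, ?_, ?_⟩
  · intro l hl G _ hfg hG
    obtain ⟨H, hH, ι, φ, ψ, -, h2, h3, h4, h5, -⟩ := embedding G hfg
    exact ⟨H, hH, h2, (dl_len φ h3 h4 ψ h5 l hl).1 hG, φ, h3⟩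
  · intro G _ hfg
    obtain ⟨H, hH, ι, φ, ψ, h1, h2, h3, h4, h5, h6, h7, h8⟩ := embedding G hfg
    exact ⟨H, hH, ι, φ, ψ, h1, h2, h3, h4, h5, laws φ h3 h4 ψ h5, fun l hl =>
      dl_len φ h3 h4 ψ h5 l hl, h6, h7, h8⟩
  · intro k l hl
    obtain ⟨m, rfl⟩ : ∃ m, l = m + 1 := ⟨l - 1, by omega⟩
    exact witness k m

end Pool.Agent.Results.MP_5335f7_al.SharpEmbedding
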